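import Pool.Agent.Lib.MP_0087d5_lc.NEG.CDef

/-!
Gates whose values depend on some of the variables only.
-/

namespace Pool.Agent.NEGV

open Pool.Agent.NEG

/-- the value of the gate `g` depends only on the values of the variables in `N` -/
def Det {J G : Type} (C : Circuit J G) (N : Set J) (g : G) : Prop :=
  ∀ x y : J → Bool, (∀ e ∈ N, x e = y e) → ∀ v w : G → Bool,
    C.Consistent x v → C.Consistent y w → v g = w g

end Pool.Agent.NEGV
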