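import Pool.Agent.Lib.MP_0087d5_lc.NEGS.Along
import Pool.Agent.Lib.MP_0087d5_lc.NEGV.VDef

/-!
Substitutions in circuits: the variables are replaced by new variables or constants, and the
gates of a set `F` (whose values are known) are replaced by constants.
-/

namespace Pool.Agent.NEGV

open Pool.Agent.NEG Pool.Agent.NEGS

variable {I J G : Type}

/-- the new source of an input of a gate -/
noncomputable def sbSrc (sub : J → I ⊕ Bool) (F : Set G) (v0 : G → Bool) :
    (J ⊕ Bool) ⊕ G → (I ⊕ Bool) ⊕ {g // g ∉ F} := by
  classical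
  exact fun n => match n with
    | .inl (.inl j) => .inl (sub j)
    | .inl (.inr b) => .inl (.inr b)
    | .inr g => if h : g ∈ F then .inl (.inr (v0 g)) else .inr ⟨g, h⟩

/-- the circuit after the substitution -/
noncomputable def subst (C : Circuit J G) (sub : J → I ⊕ Bool) (F : Set G) (v0 : G → Bool)
    (ho : C.out ∉ F) : Circuit I {g // g ∉ F} where
  arity g := C.arity g
  src g i := sbSrc sub F v0 (C.src g i)
  fn g := C.fn g
  out := ⟨C.out, ho⟩

variable (C : Circuit J G) (sub : J → I ⊕ Bool) (F : Set G) (v0 : G → Bool) (ho : C.out ∉ F)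

theorem subst_plain (g : {g // g ∉ F}) : (subst C sub F v0 ho).Plain g ↔ C.Plain g := Iff.rfl

theorem subst_arity (g : {g // g ∉ F}) : (subst C sub F v0 ho).arity g = C.arity g := rfl

theorem sbSrc_inr (n : (J ⊕ Bool) ⊕ G) (g' : {g // g ∉ F})
    (h : sbSrc sub F v0 n = Sum.inr g') : n = Sum.inr (g' : G) := by
  unfold sbSrc at h
  rcases n with (j | b) | g
  · simp at h
  · simp at h
  · by_cases hg : g ∈ F
    · simp [hg] at h
    · simp only [hg, dite_false] at h
      have := Sum.inr.inj h
      rw [← this]

theorem subst_src_inr (g : {g // g ∉ F}) (i : Fin (C.arity g)) (g' : {g // g ∉ F})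
    (h : (subst C sub F v0 ho).src g i = Sum.inr g') : C.src g i = Sum.inr (g' : G) :=
  sbSrc_inr sub F v0 _ g' h

theorem node_sbSrc (x : I → Bool) (v : G → Bool) (hv0 : ∀ g ∈ F, v g = v0 g)
    (n : (J ⊕ Bool) ⊕ G) :
    Circuit.node x (fun g : {g // g ∉ F} => v g) (sbSrc sub F v0 n) =
      Circuit.node (pl sub x) v n := by
  rcases n with (j | b) | g
  · change Circuit.node x _ (.inl (sub j)) = pl sub x j
    unfold pl
    cases sub j <;> rfl
  · rfl
  · unfold sbSrc
    by_cases hg : g ∈ F
    · simp only [hg, dite_true]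
      exact (hv0 g hg).symm
    · simp only [hg, dite_false]
      rfl

/-- the true values of the circuit are the true values after the substitution -/
theorem subst_consistent (x : I → Bool) (v : G → Bool) (hv : C.Consistent (pl sub x) v)
    (hv0 : ∀ g ∈ F, v g = v0 g) :
    (subst C sub F v0 ho).Consistent x (fun g => v g) := by
  intro g
  change v g = C.fn g (fun i => Circuit.node x (fun g : {g // g ∉ F} => v g)
    (sbSrc sub F v0 (C.src g i)))
  rw [hv g]
  congr 1
  funext i
  exact (node_sbSrc sub F v0 x v hv0 _).symm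

theorem subst_depth {d : ℕ} (hC : C.DepthLE d) : (subst C sub F v0 ho).DepthLE d := by
  obtain ⟨lev, h1, h2⟩ := hC
  refine ⟨fun g => lev g, fun g => h1 g, fun g i g' h => ?_⟩
  exact h2 g i g' (subst_src_inr C sub F v0 ho g i g' h)

/-- consistent values of an acyclic circuit are unique -/
theorem consistent_unique {d : ℕ} (hC : C.DepthLE d) (x : J → Bool) (v w : G → Bool)
    (hv : C.Consistent x v) (hw : C.Consistent x w) : v = w := by
  obtain ⟨lev, h1, h2⟩ := hC
  have key : ∀ n : ℕ, ∀ g, lev g ≤ n → v g = w g := by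
    intro n
    induction n with
    | zero =>
        intro g hg
        have := (h1 g).1
        omega
    | succ n ih =>
        intro g hg
        rw [hv g, hw g]
        congr 1
        funext i
        cases h : C.src g i with
        | inl a => cases a <;> rfl
        | inr g' =>
            have := h2 g i g' h
            exact ih g' (by omega)
  funext g
  exact key d g (h1 g).2

/-- existence of consistent values -/
theorem consistent_exists {d : ℕ} (hC : C.DepthLE d) (x : J → Bool) :
    ∃ v, C.Consistent x v := by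
  obtain ⟨lev, h1, h2⟩ := hC
  exact exists_consistent C lev d (fun g => (h1 g).2) h2 x

/-- the values of the gates determined by `N` are known if the substitution is constant on
`N` -/
theorem det_const {d : ℕ} (hC : C.DepthLE d) (N : Set J)
    (hN : ∀ e ∈ N, ∃ b, sub e = Sum.inr b) :
    ∃ v0 : G → Bool, ∀ (x : I → Bool) (v : G → Bool), C.Consistent (pl sub x) v →
      ∀ g ∈ {g | Det C N g}, v g = v0 g := by
  obtain ⟨v0, hv0⟩ := consistent_exists C hC (pl sub (fun _ => false))
  refine ⟨v0, fun x v hv g hg => ?_⟩
  refine hg _ _ (fun e he => ?_) v v0 hv hv0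
  obtain ⟨b, hb⟩ := hN e he
  unfold pl
  rw [hb]

theorem ncard_subst [Finite G] (p : G → Prop) :
    {g : {g // g ∉ F} | p g}.ncard = {g | g ∉ F ∧ p g}.ncard := by
  have h : {g | g ∉ F ∧ p g} = Subtype.val '' {g : {g // g ∉ F} | p g} := by
    ext g
    simp only [Set.mem_ofPred_eq, Set.mem_image, Subtype.exists, exists_and_right,
      exists_eq_right]
    constructor
    · rintro ⟨h1, h2⟩
      exact ⟨h1, h2⟩
    · rintro ⟨h1, h2⟩
      exact ⟨h1, h2⟩
  rw [h, Set.ncard_image_of_injective _ Subtype.val_injective]

theorem card_subst : Nat.card {g // g ∉ F} = {g | g ∉ F}.ncard := rfl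

end Pool.Agent.NEGV
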