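import Pool.Agent.Lib.MP_0087d5_lc.NEG.Def
import Pool.Agent.Lib.MP_0087d5_lc.NEGS.Along

/-!
The embedding of `L` blocks into a dense set of variables: the gadget with private stars.
-/

namespace Pool.Agent.NEGV

open Pool.Agent.NEG Pool.Agent.NEGS

variable {q L : ℕ}

/-- the vertices of one side of the canonical graph -/
abbrev Sd (L q r : ℕ) : Type := (Fin L × Fin q) ⊕ ((Fin L × (Fin q × Fin q)) ⊕ Fin r)

/-- the matrix of the canonical graph: left vertices `u (k, i)`, `b (k, (i, j))` and the rest,
right vertices `v (k, j)`, `a (k, (i, j))` and the rest; the variable `(k, (i, j))` is on the edge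
`u (k, i), a (k, (i, j))`; the other edges join `b (k, (i, j))` to `a (k, (i, j))` and to
`v (k, j)` and match the rest -/
def cg {r : ℕ} : Sd L q r × Sd L q r → (Fin L × (Fin q × Fin q)) ⊕ Bool
  | (.inl p, .inr (.inl e)) => if p = (e.1, e.2.1) then .inl e else .inr false
  | (.inr (.inl e), .inr (.inl e')) => .inr (decide (e = e'))
  | (.inr (.inl e), .inl p) => .inr (decide (p = (e.1, e.2.2)))
  | (.inr (.inr a), .inr (.inr b)) => .inr (decide (a = b))
  | _ => .inr false

variable {r : ℕ}

theorem cg_ua (y : Fin L × (Fin q × Fin q) → Bool) (p : Fin L × Fin q)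
    (e : Fin L × (Fin q × Fin q)) :
    pl (cg (r := r)) y (.inl p, .inr (.inl e)) = true ↔ p = (e.1, e.2.1) ∧ y e = true := by
  unfold pl cg
  by_cases h : p = (e.1, e.2.1)
  · simp [h]
  · simp [h]

theorem cg_ba (y : Fin L × (Fin q × Fin q) → Bool) (e e' : Fin L × (Fin q × Fin q)) :
    pl (cg (r := r)) y (.inr (.inl e), .inr (.inl e')) = true ↔ e = e' := by
  simp [pl, cg]

theorem cg_bv (y : Fin L × (Fin q × Fin q) → Bool) (e : Fin L × (Fin q × Fin q))
    (p : Fin L × Fin q) :
    pl (cg (r := r)) y (.inr (.inl e), .inl p) = true ↔ p = (e.1, e.2.2) := by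
  simp [pl, cg]

theorem cg_rr (y : Fin L × (Fin q × Fin q) → Bool) (a b : Fin r) :
    pl cg y ((.inr (.inr a) : Sd L q r), (.inr (.inr b) : Sd L q r)) = true ↔ a = b := by
  simp [pl, cg]

theorem cg_uv (y : Fin L × (Fin q × Fin q) → Bool) (p p' : Fin L × Fin q) :
    pl (cg (r := r)) y (.inl p, .inl p') = false := rfl

theorem cg_ur (y : Fin L × (Fin q × Fin q) → Bool) (p : Fin L × Fin q) (a : Fin r) :
    pl cg y ((.inl p : Sd L q r), (.inr (.inr a) : Sd L q r)) = false := rfl

theorem cg_br (y : Fin L × (Fin q × Fin q) → Bool) (e : Fin L × (Fin q × Fin q)) (a : Fin r) :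
    pl cg y ((.inr (.inl e) : Sd L q r), (.inr (.inr a) : Sd L q r)) = false := rfl

/-- the perfect matching of the canonical graph given by perfect matchings of the blocks -/
def cm (s : Fin L → Equiv.Perm (Fin q)) : Sd L q r → Sd L q r
  | .inl p => .inr (.inl (p.1, (p.2, s p.1 p.2)))
  | .inr (.inl e) => if s e.1 e.2.1 = e.2.2 then .inl (e.1, e.2.2) else .inr (.inl e)
  | .inr (.inr a) => .inr (.inr a)

theorem cm_inj (s : Fin L → Equiv.Perm (Fin q)) :
    Function.Injective (cm (r := r) s) := by
  intro x y h
  rcases x with p | e | a <;> rcases y with p' | e' | a'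
  · simp only [cm, Sum.inr.injEq, Sum.inl.injEq, Prod.mk.injEq] at h
    rw [show p = p' from Prod.ext h.1 h.2.1]
  · exfalso
    simp only [cm] at h
    split_ifs at h with h1
    simp only [Sum.inr.injEq, Sum.inl.injEq] at h
    apply h1
    rw [← h]
  · simp [cm] at h
  · exfalso
    simp only [cm] at h
    split_ifs at h with h1
    simp only [Sum.inr.injEq, Sum.inl.injEq] at h
    apply h1
    rw [h]
  · simp only [cm] at h
    split_ifs at h with h1 h2 h2
    · simp only [Sum.inl.injEq, Prod.mk.injEq] at h
      have h3 : e.2.1 = e'.2.1 := by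
        apply (s e.1).injective
        rw [h1, h.2, ← h2, h.1]
      rw [show e = e' from Prod.ext h.1 (Prod.ext h3 h.2)]
    · simp only [Sum.inr.injEq, Sum.inl.injEq] at h
      rw [h]
  · simp only [cm] at h
    split_ifs at h with h1
    simp at h
  · simp [cm] at h
  · simp only [cm] at h
    split_ifs at h with h1
    simp at h
  · simpa [cm] using h

theorem cg_pm (y : Fin L × (Fin q × Fin q) → Bool) :
    (∃ s : Equiv.Perm (Sd L q r), ∀ x, pl cg y (x, s x) = true) ↔
      ∀ k, BPM q (fun p => y (k, p)) := by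
  constructor
  · rintro ⟨s, hs⟩ k
    have h1 : ∀ i : Fin q, ∃ j : Fin q, s (.inl (k, i)) = .inr (.inl (k, (i, j))) ∧
        y (k, (i, j)) = true := by
      intro i
      have h := hs (.inl (k, i))
      rcases hx : s (.inl (k, i)) with p | e | a
      · rw [hx, cg_uv] at h
        exact absurd h (by decide)
      · rw [hx, cg_ua] at h
        obtain ⟨h2, h3⟩ := h
        refine ⟨e.2.2, ?_, ?_⟩
        · have e1 := congrArg Prod.fst h2
          have e2 := congrArg Prod.snd h2
          simp only at e1 e2
          rw [e1, e2]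
        · have e1 := congrArg Prod.fst h2
          have e2 := congrArg Prod.snd h2
          simp only at e1 e2
          rw [e1, e2]
          exact h3
      · rw [hx, cg_ur] at h
        exact absurd h (by decide)
    choose f hf hy using h1
    have hb : ∀ i : Fin q, s (.inr (.inl (k, (i, f i)))) = .inl (k, f i) := by
      intro i
      have h := hs (.inr (.inl (k, (i, f i))))
      rcases hx : s (.inr (.inl (k, (i, f i)))) with p | e | a
      · rw [hx, cg_bv] at h
        rw [h]
      · rw [hx, cg_ba] at h
        rw [← h] at hx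
        have h5 := s.injective (hx.trans (hf i).symm)
        exact absurd h5 (by simp)
      · rw [hx, cg_br] at h
        exact absurd h (by decide)
    have hinj : Function.Injective f := by
      intro i i' h
      have h1 := hb i
      have h2 := hb i'
      rw [← h] at h2
      have h3 := s.injective (h1.trans h2.symm)
      simp only [Sum.inr.injEq, Sum.inl.injEq, Prod.mk.injEq] at h3
      exact h3.2.1
    exact ⟨Equiv.ofBijective f (Finite.injective_iff_bijective.mp hinj), hy⟩
  · intro h
    choose s hs using h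
    refine ⟨Equiv.ofBijective (cm s) (Finite.injective_iff_bijective.mp (cm_inj s)), ?_⟩
    intro x
    rw [Equiv.ofBijective_apply]
    rcases x with p | e | a
    · simp only [cm]
      rw [cg_ua]
      exact ⟨rfl, hs p.1 p.2⟩
    · simp only [cm]
      split_ifs with h1
      · rw [cg_bv]
      · rw [cg_ba]
    · simp only [cm]
      rw [cg_rr]

/-- rows and columns of a substitution with few entries other than the constant `false` -/
def Sparse {n : ℕ} {I : Type} (f : Fin n × Fin n → I ⊕ Bool) (d : ℕ) : Prop :=
  ∀ a, {b | f (a, b) ≠ .inr false}.ncard ≤ d ∧ {b | f (b, a) ≠ .inr false}.ncard ≤ d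

theorem cg_row (x : Sd L q r) : {z : Sd L q r | cg (x, z) ≠ .inr false}.ncard ≤ q + 1 := by
  rcases x with p | e | a
  · have h : {z : Sd L q r | cg (.inl p, z) ≠ .inr false} ⊆
        Set.range (fun j : Fin q => (.inr (.inl (p.1, (p.2, j))) : Sd L q r)) := by
      intro z hz
      rcases z with p' | e' | a'
      · exact absurd rfl hz
      · have h1 : cg ((.inl p : Sd L q r), (.inr (.inl e') : Sd L q r)) ≠ .inr false := hz
        simp only [cg] at h1
        split_ifs at h1 with h2
        · exact ⟨e'.2.2, by rw [h2]⟩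
        · exact absurd rfl h1
      · exact absurd rfl hz
    have h2 := Set.ncard_le_ncard h (Set.toFinite _)
    have h3 : (Set.range (fun j : Fin q => (.inr (.inl (p.1, (p.2, j))) : Sd L q r))).ncard ≤
        q := by
      rw [← Set.image_univ]
      refine (Set.ncard_image_le (Set.toFinite _)).trans ?_
      rw [Set.ncard_univ, Nat.card_eq_fintype_card, Fintype.card_fin]
    omega
  · have hq : 0 < q := Fin.pos e.2.1
    have h : {z : Sd L q r | cg (.inr (.inl e), z) ≠ .inr false} ⊆
        {(.inr (.inl e) : Sd L q r), (.inl (e.1, e.2.2) : Sd L q r)} := by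
      intro z hz
      rcases z with p' | e' | a'
      · have h1 : cg ((.inr (.inl e) : Sd L q r), (.inl p' : Sd L q r)) ≠ .inr false := hz
        simp only [cg] at h1
        right
        by_cases h2 : p' = (e.1, e.2.2)
        · rw [h2]; rfl
        · exact absurd (by simp [h2]) h1
      · have h1 : cg ((.inr (.inl e) : Sd L q r), (.inr (.inl e') : Sd L q r)) ≠ .inr false := hz
        simp only [cg] at h1
        left
        by_cases h2 : e = e'
        · rw [h2]
        · exact absurd (by simp [h2]) h1
      · exact absurd rfl hz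
    have h2 := Set.ncard_le_ncard h (Set.toFinite _)
    have h3 := Set.ncard_insert_le (.inr (.inl e) : Sd L q r) {(.inl (e.1, e.2.2) : Sd L q r)}
    rw [Set.ncard_singleton] at h3
    omega
  · have h : {z : Sd L q r | cg (.inr (.inr a), z) ≠ .inr false} ⊆
        {(.inr (.inr a) : Sd L q r)} := by
      intro z hz
      rcases z with p' | e' | a'
      · exact absurd rfl hz
      · exact absurd rfl hz
      · have h1 : cg ((.inr (.inr a) : Sd L q r), (.inr (.inr a') : Sd L q r)) ≠ .inr false := hz
        simp only [cg] at h1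
        by_cases h2 : a = a'
        · rw [h2]; rfl
        · exact absurd (by simp [h2]) h1
    have h2 := Set.ncard_le_ncard h (Set.toFinite _)
    rw [Set.ncard_singleton] at h2
    omega

theorem cg_col (x : Sd L q r) : {z : Sd L q r | cg (z, x) ≠ .inr false}.ncard ≤ q + 1 := by
  rcases x with p | e | a
  · have h : {z : Sd L q r | cg (z, .inl p) ≠ .inr false} ⊆
        Set.range (fun i : Fin q => (.inr (.inl (p.1, (i, p.2))) : Sd L q r)) := by
      intro z hz
      rcases z with p' | e' | a'
      · exact absurd rfl hz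
      · have h1 : cg ((.inr (.inl e') : Sd L q r), (.inl p : Sd L q r)) ≠ .inr false := hz
        simp only [cg] at h1
        by_cases h2 : p = (e'.1, e'.2.2)
        · exact ⟨e'.2.1, by rw [h2]⟩
        · exact absurd (by simp [h2]) h1
      · exact absurd rfl hz
    have h2 := Set.ncard_le_ncard h (Set.toFinite _)
    have h3 : (Set.range (fun i : Fin q => (.inr (.inl (p.1, (i, p.2))) : Sd L q r))).ncard ≤
        q := by
      rw [← Set.image_univ]
      refine (Set.ncard_image_le (Set.toFinite _)).trans ?_
      rw [Set.ncard_univ, Nat.card_eq_fintype_card, Fintype.card_fin]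
    omega
  · have hq : 0 < q := Fin.pos e.2.1
    have h : {z : Sd L q r | cg (z, .inr (.inl e)) ≠ .inr false} ⊆
        {(.inr (.inl e) : Sd L q r), (.inl (e.1, e.2.1) : Sd L q r)} := by
      intro z hz
      rcases z with p' | e' | a'
      · have h1 : cg ((.inl p' : Sd L q r), (.inr (.inl e) : Sd L q r)) ≠ .inr false := hz
        simp only [cg] at h1
        right
        split_ifs at h1 with h2
        · rw [h2]; rfl
        · exact absurd rfl h1
      · have h1 : cg ((.inr (.inl e') : Sd L q r), (.inr (.inl e) : Sd L q r)) ≠ .inr false := hz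
        simp only [cg] at h1
        left
        by_cases h2 : e' = e
        · rw [h2]
        · exact absurd (by simp [h2]) h1
      · exact absurd rfl hz
    have h2 := Set.ncard_le_ncard h (Set.toFinite _)
    have h3 := Set.ncard_insert_le (.inr (.inl e) : Sd L q r) {(.inl (e.1, e.2.1) : Sd L q r)}
    rw [Set.ncard_singleton] at h3
    omega
  · have h : {z : Sd L q r | cg (z, .inr (.inr a)) ≠ .inr false} ⊆
        {(.inr (.inr a) : Sd L q r)} := by
      intro z hz
      rcases z with p' | e' | a'
      · exact absurd rfl hz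
      · exact absurd rfl hz
      · have h1 : cg ((.inr (.inr a') : Sd L q r), (.inr (.inr a) : Sd L q r)) ≠ .inr false := hz
        simp only [cg] at h1
        by_cases h2 : a' = a
        · rw [h2]; rfl
        · exact absurd (by simp [h2]) h1
    have h2 := Set.ncard_le_ncard h (Set.toFinite _)
    rw [Set.ncard_singleton] at h2
    omega

/-- the substitution of a matrix given by identifications of the two sides with the
canonical sides -/
def sbE {n : ℕ} (eL eR : Fin n ≃ Sd L q r) (p : Fin n × Fin n) :
    (Fin L × (Fin q × Fin q)) ⊕ Bool :=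
  cg (eL p.1, eR p.2)

theorem sbE_pm {n : ℕ} (eL eR : Fin n ≃ Sd L q r) (y : Fin L × (Fin q × Fin q) → Bool) :
    BPM n (pl (sbE eL eR) y) ↔ ∀ k, BPM q (fun p => y (k, p)) := by
  rw [← cg_pm (r := r)]
  constructor
  · rintro ⟨s, hs⟩
    refine ⟨(eL.symm.trans s).trans eR, fun x => ?_⟩
    have h := hs (eL.symm x)
    have h2 : pl (sbE eL eR) y (eL.symm x, s (eL.symm x)) =
        pl cg y (eL (eL.symm x), eR (s (eL.symm x))) := rfl
    rw [h2, Equiv.apply_symm_apply] at h
    exact h
  · rintro ⟨s, hs⟩
    refine ⟨(eL.trans s).trans eR.symm, fun x => ?_⟩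
    have h := hs (eL x)
    have h2 : pl (sbE eL eR) y (x, ((eL.trans s).trans eR.symm) x) =
        pl cg y (eL x, eR (eR.symm (s (eL x)))) := rfl
    rw [h2, Equiv.apply_symm_apply]
    exact h

theorem sbE_var {n : ℕ} (eL eR : Fin n ≃ Sd L q r) (p : Fin n × Fin n)
    (e : Fin L × (Fin q × Fin q)) (h : sbE eL eR p = .inl e) :
    eL p.1 = .inl (e.1, e.2.1) ∧ eR p.2 = .inr (.inl e) := by
  unfold sbE at h
  rcases h1 : eL p.1 with a | a | a <;> rcases h2 : eR p.2 with b | b | b <;>
    rw [h1, h2] at h <;> simp only [cg] at h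
  · exact absurd h (by simp)
  · split_ifs at h with h3
    · simp only [Sum.inl.injEq] at h
      rw [← h, h3]
      exact ⟨rfl, rfl⟩
  all_goals exact absurd h (by simp)

theorem sbE_sparse {n : ℕ} (eL eR : Fin n ≃ Sd L q r) : Sparse (sbE eL eR) (q + 1) := by
  intro a
  constructor
  · refine le_trans ?_ (cg_row (eL a))
    exact Set.ncard_le_ncard_of_injOn eR (fun b hb => hb) (eR.injective.injOn) (Set.toFinite _)
  · refine le_trans ?_ (cg_col (eR a))
    exact Set.ncard_le_ncard_of_injOn eL (fun b hb => hb) (eL.injective.injOn) (Set.toFinite _)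

/-- an injection can be completed to an equivalence with a sum -/
theorem exists_side {A : Type} [Fintype A] {n : ℕ} (f : A → Fin n) (hf : Function.Injective f)
    (B : Type) [Fintype B] (hB : Fintype.card A + Fintype.card B = n) :
    ∃ e : Fin n ≃ A ⊕ B, ∀ a, e (f a) = .inl a := by
  classical
  let e1 : A ≃ Set.range f := Equiv.ofInjective f hf
  have hcard : Fintype.card ((Set.range f)ᶜ : Set (Fin n)) = Fintype.card B := by
    rw [Fintype.card_compl_set, Fintype.card_fin, Set.card_range_of_injective hf]
    omega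
  let e2 : ((Set.range f)ᶜ : Set (Fin n)) ≃ B := Fintype.equivOfCardEq hcard
  let e3 : Fin n ≃ (Set.range f) ⊕ ((Set.range f)ᶜ : Set (Fin n)) :=
    (Equiv.Set.sumCompl (Set.range f)).symm
  refine ⟨e3.trans (Equiv.sumCongr e1.symm e2), fun a => ?_⟩
  have h1 : e3 (f a) = .inl ⟨f a, Set.mem_range_self a⟩ :=
    Equiv.Set.sumCompl_symm_apply_of_mem (Set.mem_range_self a)
  rw [Equiv.trans_apply, h1]
  simp only [Equiv.sumCongr_apply, Sum.map_inl, Sum.inl.injEq]
  rw [Equiv.symm_apply_eq]
  rfl

/-- the substitution for given stars -/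
theorem exists_sub_of_stars {n : ℕ} (P : Fin n → Fin n → Prop)
    (u : Fin L × Fin q → Fin n) (a : Fin L × (Fin q × Fin q) → Fin n)
    (hu : Function.Injective u) (ha : Function.Injective a)
    (hP : ∀ e : Fin L × (Fin q × Fin q), P (u (e.1, e.2.1)) (a e))
    (hn : L * q + L * (q * q) ≤ n) :
    ∃ f : Fin n × Fin n → (Fin L × (Fin q × Fin q)) ⊕ Bool,
      (∀ p e, f p = .inl e → P p.1 p.2) ∧
      (∀ y, BPM n (pl f y) ↔ ∀ k, BPM q (fun p => y (k, p))) ∧ Sparse f (q + 1) := by
  set r := n - (L * q + L * (q * q)) with hr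
  obtain ⟨eL, hL⟩ := exists_side u hu ((Fin L × (Fin q × Fin q)) ⊕ Fin r) (by
    simp only [Fintype.card_prod, Fintype.card_fin, Fintype.card_sum]
    omega)
  obtain ⟨eR', hR'⟩ := exists_side a ha ((Fin L × Fin q) ⊕ Fin r) (by
    simp only [Fintype.card_prod, Fintype.card_fin, Fintype.card_sum]
    omega)
  let sw : (Fin L × (Fin q × Fin q)) ⊕ ((Fin L × Fin q) ⊕ Fin r) ≃ Sd L q r :=
    { toFun := fun x => match x with
        | .inl e => .inr (.inl e)
        | .inr (.inl p) => .inl p
        | .inr (.inr a) => .inr (.inr a)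
      invFun := fun x => match x with
        | .inr (.inl e) => .inl e
        | .inl p => .inr (.inl p)
        | .inr (.inr a) => .inr (.inr a)
      left_inv := by
        rintro (e | p | a) <;> rfl
      right_inv := by
        rintro (e | p | a) <;> rfl }
  let eR : Fin n ≃ Sd L q r := eR'.trans sw
  have hR : ∀ e, eR (a e) = .inr (.inl e) := by
    intro e
    change sw (eR' (a e)) = _
    rw [hR']
    rfl
  refine ⟨sbE eL eR, fun p e h => ?_, fun y => sbE_pm eL eR y, sbE_sparse eL eR⟩
  obtain ⟨h1, h2⟩ := sbE_var eL eR p e h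
  have h3 : p.1 = u (e.1, e.2.1) := eL.injective (h1.trans (hL _).symm)
  have h4 : p.2 = a e := eR.injective (h2.trans (hR _).symm)
  rw [h3, h4]
  exact hP e

/-- the transposed matrix has a perfect matching iff the matrix has one -/
theorem bpm_swap {n : ℕ} (x : Fin n × Fin n → Bool) :
    BPM n (fun p => x (p.2, p.1)) ↔ BPM n x := by
  constructor
  · rintro ⟨s, hs⟩
    refine ⟨s.symm, fun i => ?_⟩
    have h := hs (s.symm i)
    simp only [Equiv.apply_symm_apply] at h
    exact h
  · rintro ⟨s, hs⟩
    refine ⟨s.symm, fun i => ?_⟩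
    have h := hs (s.symm i)
    simp only [Equiv.apply_symm_apply] at h
    exact h

/-- the substitution for given stars with centres on the right -/
theorem exists_sub_of_stars_right {n : ℕ} (P : Fin n → Fin n → Prop)
    (u : Fin L × Fin q → Fin n) (a : Fin L × (Fin q × Fin q) → Fin n)
    (hu : Function.Injective u) (ha : Function.Injective a)
    (hP : ∀ e : Fin L × (Fin q × Fin q), P (a e) (u (e.1, e.2.1)))
    (hn : L * q + L * (q * q) ≤ n) :
    ∃ f : Fin n × Fin n → (Fin L × (Fin q × Fin q)) ⊕ Bool,
      (∀ p e, f p = .inl e → P p.1 p.2) ∧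
      (∀ y, BPM n (pl f y) ↔ ∀ k, BPM q (fun p => y (k, p))) ∧ Sparse f (q + 1) := by
  obtain ⟨f, hf, hy, hs⟩ := exists_sub_of_stars (fun x y => P y x) u a hu ha hP hn
  refine ⟨fun p => f (p.2, p.1), fun p e h => hf (p.2, p.1) e h, fun y => ?_,
    fun a => ⟨(hs a).2, (hs a).1⟩⟩
  rw [← hy y]
  exact bpm_swap (pl f y)

end Pool.Agent.NEGV
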