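import Pool.Agent.Lib.MP_0087d5_lc.NEGV.Embed

/-!
The embedding of `L` blocks when the variables are pairwise disjoint edges: the gadget with
paths of length five.
-/

namespace Pool.Agent.NEGV

open Pool.Agent.NEG Pool.Agent.NEGS

variable {q L : ℕ}

/-- the vertices of one side of the canonical graph -/
abbrev Sm (L q r : ℕ) : Type :=
  (Fin L × (Fin q × Fin q)) ⊕ ((Fin L × Fin q) ⊕ ((Fin L × (Fin q × Fin q)) ⊕ Fin r))

/-- the matrix of the canonical graph: left vertices `c z`, `u (k, i)`, `b z` and the rest,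
right vertices `d z`, `v (k, j)`, `a z` and the rest, where `z = (k, (i, j))`; the variable `z`
is on the edge `c z, d z`; the other edges join `u (k, i)` and `c z` to `a z`, and `b z` to
`d z` and `v (k, j)`, and match the rest -/
def gm {r : ℕ} : Sm L q r × Sm L q r → (Fin L × (Fin q × Fin q)) ⊕ Bool
  | (.inl z, .inl z') => if z = z' then .inl z else .inr false
  | (.inl z, .inr (.inr (.inl z'))) => .inr (decide (z = z'))
  | (.inr (.inl p), .inr (.inr (.inl z))) => .inr (decide (p = (z.1, z.2.1)))
  | (.inr (.inr (.inl z)), .inl z') => .inr (decide (z = z'))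
  | (.inr (.inr (.inl z)), .inr (.inl p)) => .inr (decide (p = (z.1, z.2.2)))
  | (.inr (.inr (.inr a)), .inr (.inr (.inr b))) => .inr (decide (a = b))
  | _ => .inr false

variable {r : ℕ}

theorem gm_cd (y : Fin L × (Fin q × Fin q) → Bool) (z z' : Fin L × (Fin q × Fin q)) :
    pl (gm (r := r)) y (.inl z, .inl z') = true ↔ z = z' ∧ y z = true := by
  unfold pl gm
  by_cases h : z = z'
  · simp [h]
  · simp [h]

theorem gm_ca (y : Fin L × (Fin q × Fin q) → Bool) (z z' : Fin L × (Fin q × Fin q)) :
    pl (gm (r := r)) y (.inl z, .inr (.inr (.inl z'))) = true ↔ z = z' := by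
  simp [pl, gm]

theorem gm_ua (y : Fin L × (Fin q × Fin q) → Bool) (p : Fin L × Fin q)
    (z : Fin L × (Fin q × Fin q)) :
    pl (gm (r := r)) y (.inr (.inl p), .inr (.inr (.inl z))) = true ↔ p = (z.1, z.2.1) := by
  simp [pl, gm]

theorem gm_bd (y : Fin L × (Fin q × Fin q) → Bool) (z z' : Fin L × (Fin q × Fin q)) :
    pl (gm (r := r)) y (.inr (.inr (.inl z)), .inl z') = true ↔ z = z' := by
  simp [pl, gm]

theorem gm_bv (y : Fin L × (Fin q × Fin q) → Bool) (z : Fin L × (Fin q × Fin q))
    (p : Fin L × Fin q) :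
    pl (gm (r := r)) y (.inr (.inr (.inl z)), .inr (.inl p)) = true ↔ p = (z.1, z.2.2) := by
  simp [pl, gm]

theorem gm_rr (y : Fin L × (Fin q × Fin q) → Bool) (a b : Fin r) :
    pl gm y ((.inr (.inr (.inr a)) : Sm L q r), (.inr (.inr (.inr b)) : Sm L q r)) = true ↔
      a = b := by
  simp [pl, gm]

/-- the perfect matching of the canonical graph given by perfect matchings of the blocks -/
def mm (s : Fin L → Equiv.Perm (Fin q)) : Sm L q r → Sm L q r
  | .inl z => if s z.1 z.2.1 = z.2.2 then .inl z else .inr (.inr (.inl z))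
  | .inr (.inl p) => .inr (.inr (.inl (p.1, (p.2, s p.1 p.2))))
  | .inr (.inr (.inl z)) => if s z.1 z.2.1 = z.2.2 then .inr (.inl (z.1, z.2.2)) else .inl z
  | .inr (.inr (.inr a)) => .inr (.inr (.inr a))

/-- the inverse -/
def mi (s : Fin L → Equiv.Perm (Fin q)) : Sm L q r → Sm L q r
  | .inl z => if s z.1 z.2.1 = z.2.2 then .inl z else .inr (.inr (.inl z))
  | .inr (.inl p) => .inr (.inr (.inl (p.1, ((s p.1).symm p.2, p.2))))
  | .inr (.inr (.inl z)) => if s z.1 z.2.1 = z.2.2 then .inr (.inl (z.1, z.2.1)) else .inl z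
  | .inr (.inr (.inr a)) => .inr (.inr (.inr a))

theorem mi_mm (s : Fin L → Equiv.Perm (Fin q)) (x : Sm L q r) : mi s (mm s x) = x := by
  rcases x with z | p | z | a
  · by_cases h : s z.1 z.2.1 = z.2.2
    · simp [mm, mi, h]
    · simp [mm, mi, h]
  · simp [mm, mi]
  · by_cases h : s z.1 z.2.1 = z.2.2
    · have h2 : (s z.1).symm z.2.2 = z.2.1 := by rw [← h, Equiv.symm_apply_apply]
      simp [mm, mi, h, h2]
    · simp [mm, mi, h]
  · rfl

theorem gm_pm (y : Fin L × (Fin q × Fin q) → Bool) :
    (∃ s : Equiv.Perm (Sm L q r), ∀ x, pl gm y (x, s x) = true) ↔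
      ∀ k, BPM q (fun p => y (k, p)) := by
  constructor
  · rintro ⟨s, hs⟩ k
    -- the partner of `u`
    have h1 : ∀ i : Fin q, ∃ j : Fin q,
        s (.inr (.inl (k, i))) = .inr (.inr (.inl (k, (i, j)))) := by
      intro i
      have h := hs (.inr (.inl (k, i)))
      rcases hx : s (.inr (.inl (k, i))) with z | p | z | a
      · rw [hx] at h
        exact absurd h (by simp [pl, gm])
      · rw [hx] at h
        exact absurd h (by simp [pl, gm])
      · rw [hx, gm_ua] at h
        refine ⟨z.2.2, ?_⟩
        have e1 := congrArg Prod.fst h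
        have e2 := congrArg Prod.snd h
        simp only at e1 e2
        rw [e1, e2]
      · rw [hx] at h
        exact absurd h (by simp [pl, gm])
    choose f hf using h1
    -- the partner of `c`
    have hc : ∀ i : Fin q, s (.inl (k, (i, f i))) = .inl (k, (i, f i)) ∧
        y (k, (i, f i)) = true := by
      intro i
      have h := hs (.inl (k, (i, f i)))
      rcases hx : s (.inl (k, (i, f i))) with z | p | z | a
      · rw [hx, gm_cd] at h
        rw [← h.1]
        exact ⟨rfl, h.2⟩
      · rw [hx] at h
        exact absurd h (by simp [pl, gm])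
      · rw [hx, gm_ca] at h
        rw [← h] at hx
        have h5 := s.injective (hx.trans (hf i).symm)
        exact absurd h5 (by simp)
      · rw [hx] at h
        exact absurd h (by simp [pl, gm])
    -- the partner of `b`
    have hb : ∀ i : Fin q, s (.inr (.inr (.inl (k, (i, f i))))) = .inr (.inl (k, f i)) := by
      intro i
      have h := hs (.inr (.inr (.inl (k, (i, f i)))))
      rcases hx : s (.inr (.inr (.inl (k, (i, f i))))) with z | p | z | a
      · rw [hx, gm_bd] at h
        rw [← h] at hx
        have h5 := s.injective (hx.trans (hc i).1.symm)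
        exact absurd h5 (by simp)
      · rw [hx, gm_bv] at h
        rw [h]
      · rw [hx] at h
        exact absurd h (by simp [pl, gm])
      · rw [hx] at h
        exact absurd h (by simp [pl, gm])
    have hinj : Function.Injective f := by
      intro i i' h
      have h1 := hb i
      have h2 := hb i'
      rw [← h] at h2
      have h3 := s.injective (h1.trans h2.symm)
      simp only [Sum.inr.injEq, Sum.inl.injEq, Prod.mk.injEq] at h3
      exact h3.2.1
    exact ⟨Equiv.ofBijective f (Finite.injective_iff_bijective.mp hinj), fun i => (hc i).2⟩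
  · intro h
    choose s hs using h
    have hinj : Function.Injective (mm (r := r) s) :=
      Function.LeftInverse.injective (g := mi s) (mi_mm s)
    refine ⟨Equiv.ofBijective (mm s) (Finite.injective_iff_bijective.mp hinj), ?_⟩
    intro x
    rw [Equiv.ofBijective_apply]
    rcases x with z | p | z | a
    · simp only [mm]
      split_ifs with h1
      · rw [gm_cd]
        refine ⟨rfl, ?_⟩
        have h2 := hs z.1 z.2.1
        rw [h1] at h2
        exact h2
      · rw [gm_ca]
    · simp only [mm]
      rw [gm_ua]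
    · simp only [mm]
      split_ifs with h1
      · rw [gm_bv]
      · rw [gm_bd]
    · simp only [mm]
      rw [gm_rr]

theorem ncard_pair_le {α : Type} (S : Set α) (a b : α) (h : S ⊆ {a, b}) : S.ncard ≤ 2 := by
  have h2 := Set.ncard_le_ncard h (Set.toFinite _)
  have h3 := Set.ncard_insert_le a {b}
  rw [Set.ncard_singleton] at h3
  omega

theorem ncard_range_le {α : Type} (S : Set α) (f : Fin q → α) (h : S ⊆ Set.range f) :
    S.ncard ≤ q := by
  have h2 := Set.ncard_le_ncard h (Set.toFinite _)
  have h3 : (Set.range f).ncard ≤ q := by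
    rw [← Set.image_univ]
    refine (Set.ncard_image_le (Set.toFinite _)).trans ?_
    rw [Set.ncard_univ, Nat.card_eq_fintype_card, Fintype.card_fin]
  omega

theorem gm_row (x : Sm L q r) : {z : Sm L q r | gm (x, z) ≠ .inr false}.ncard ≤ q + 1 := by
  rcases x with z | p | z | a
  · have hq : 0 < q := Fin.pos z.2.1
    refine (ncard_pair_le _ (.inl z) (.inr (.inr (.inl z))) ?_).trans (by omega)
    intro w hw
    rcases w with z' | p' | z' | a'
    · by_cases h2 : z = z'
      · left; rw [h2]
      · exact absurd (by simp [gm, h2]) hw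
    · exact absurd rfl hw
    · by_cases h2 : z = z'
      · right; rw [h2]; rfl
      · exact absurd (by simp [gm, h2]) hw
    · exact absurd rfl hw
  · refine (ncard_range_le _ (fun j : Fin q =>
      (.inr (.inr (.inl (p.1, (p.2, j)))) : Sm L q r)) ?_).trans (by omega)
    intro w hw
    rcases w with z' | p' | z' | a'
    · exact absurd rfl hw
    · exact absurd rfl hw
    · by_cases h2 : p = (z'.1, z'.2.1)
      · exact ⟨z'.2.2, by rw [h2]⟩
      · exact absurd (by simp [gm, h2]) hw
    · exact absurd rfl hw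
  · have hq : 0 < q := Fin.pos z.2.1
    refine (ncard_pair_le _ (.inl z) (.inr (.inl (z.1, z.2.2))) ?_).trans (by omega)
    intro w hw
    rcases w with z' | p' | z' | a'
    · by_cases h2 : z = z'
      · left; rw [h2]
      · exact absurd (by simp [gm, h2]) hw
    · by_cases h2 : p' = (z.1, z.2.2)
      · right; rw [h2]; rfl
      · exact absurd (by simp [gm, h2]) hw
    · exact absurd rfl hw
    · exact absurd rfl hw
  · have h : {w : Sm L q r | gm (.inr (.inr (.inr a)), w) ≠ .inr false} ⊆
        {(.inr (.inr (.inr a)) : Sm L q r)} := by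
      intro w hw
      rcases w with z' | p' | z' | a'
      · exact absurd rfl hw
      · exact absurd rfl hw
      · exact absurd rfl hw
      · by_cases h2 : a = a'
        · rw [h2]; rfl
        · exact absurd (by simp [gm, h2]) hw
    have h2 := Set.ncard_le_ncard h (Set.toFinite _)
    rw [Set.ncard_singleton] at h2
    omega

theorem gm_col (x : Sm L q r) : {z : Sm L q r | gm (z, x) ≠ .inr false}.ncard ≤ q + 1 := by
  rcases x with z | p | z | a
  · have hq : 0 < q := Fin.pos z.2.1
    refine (ncard_pair_le _ (.inl z) (.inr (.inr (.inl z))) ?_).trans (by omega)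
    intro w hw
    rcases w with z' | p' | z' | a'
    · by_cases h2 : z' = z
      · left; rw [h2]
      · exact absurd (by simp [gm, h2]) hw
    · exact absurd rfl hw
    · by_cases h2 : z' = z
      · right; rw [h2]; rfl
      · exact absurd (by simp [gm, h2]) hw
    · exact absurd rfl hw
  · refine (ncard_range_le _ (fun i : Fin q =>
      (.inr (.inr (.inl (p.1, (i, p.2)))) : Sm L q r)) ?_).trans (by omega)
    intro w hw
    rcases w with z' | p' | z' | a'
    · exact absurd rfl hw
    · exact absurd rfl hw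
    · by_cases h2 : p = (z'.1, z'.2.2)
      · exact ⟨z'.2.1, by rw [h2]⟩
      · exact absurd (by simp [gm, h2]) hw
    · exact absurd rfl hw
  · have hq : 0 < q := Fin.pos z.2.1
    refine (ncard_pair_le _ (.inl z) (.inr (.inl (z.1, z.2.1))) ?_).trans (by omega)
    intro w hw
    rcases w with z' | p' | z' | a'
    · by_cases h2 : z' = z
      · left; rw [h2]
      · exact absurd (by simp [gm, h2]) hw
    · by_cases h2 : p' = (z.1, z.2.1)
      · right; rw [h2]; rfl
      · exact absurd (by simp [gm, h2]) hw
    · exact absurd rfl hw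
    · exact absurd rfl hw
  · have h : {w : Sm L q r | gm (w, .inr (.inr (.inr a))) ≠ .inr false} ⊆
        {(.inr (.inr (.inr a)) : Sm L q r)} := by
      intro w hw
      rcases w with z' | p' | z' | a'
      · exact absurd rfl hw
      · exact absurd rfl hw
      · exact absurd rfl hw
      · by_cases h2 : a' = a
        · rw [h2]; rfl
        · exact absurd (by simp [gm, h2]) hw
    have h2 := Set.ncard_le_ncard h (Set.toFinite _)
    rw [Set.ncard_singleton] at h2
    omega

/-- the substitution of a matrix given by identifications of the two sides with the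
canonical sides -/
def sbM {n : ℕ} (eL eR : Fin n ≃ Sm L q r) (p : Fin n × Fin n) :
    (Fin L × (Fin q × Fin q)) ⊕ Bool :=
  gm (eL p.1, eR p.2)

theorem sbM_pm {n : ℕ} (eL eR : Fin n ≃ Sm L q r) (y : Fin L × (Fin q × Fin q) → Bool) :
    BPM n (pl (sbM eL eR) y) ↔ ∀ k, BPM q (fun p => y (k, p)) := by
  rw [← gm_pm (r := r)]
  constructor
  · rintro ⟨s, hs⟩
    refine ⟨(eL.symm.trans s).trans eR, fun x => ?_⟩
    have h := hs (eL.symm x)
    have h2 : pl (sbM eL eR) y (eL.symm x, s (eL.symm x)) =
        pl gm y (eL (eL.symm x), eR (s (eL.symm x))) := rfl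
    rw [h2, Equiv.apply_symm_apply] at h
    exact h
  · rintro ⟨s, hs⟩
    refine ⟨(eL.trans s).trans eR.symm, fun x => ?_⟩
    have h := hs (eL x)
    have h2 : pl (sbM eL eR) y (x, ((eL.trans s).trans eR.symm) x) =
        pl gm y (eL x, eR (eR.symm (s (eL x)))) := rfl
    rw [h2, Equiv.apply_symm_apply]
    exact h

theorem sbM_var {n : ℕ} (eL eR : Fin n ≃ Sm L q r) (p : Fin n × Fin n)
    (e : Fin L × (Fin q × Fin q)) (h : sbM eL eR p = .inl e) :
    eL p.1 = .inl e ∧ eR p.2 = .inl e := by
  unfold sbM at h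
  rcases h1 : eL p.1 with a | a | a | a <;> rcases h2 : eR p.2 with b | b | b | b <;>
    rw [h1, h2] at h <;> simp only [gm] at h
  · split_ifs at h with h3
    · simp only [Sum.inl.injEq] at h
      rw [← h3, h]
      exact ⟨rfl, rfl⟩
  all_goals exact absurd h (by simp)

theorem sbM_sparse {n : ℕ} (eL eR : Fin n ≃ Sm L q r) : Sparse (sbM eL eR) (q + 1) := by
  intro a
  constructor
  · refine le_trans ?_ (gm_row (eL a))
    exact Set.ncard_le_ncard_of_injOn eR (fun b hb => hb) (eR.injective.injOn) (Set.toFinite _)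
  · refine le_trans ?_ (gm_col (eR a))
    exact Set.ncard_le_ncard_of_injOn eL (fun b hb => hb) (eL.injective.injOn) (Set.toFinite _)

/-- a set of at least `3 L q ^ 2` pairwise disjoint pairs carries `L` blocks -/
theorem exists_embedM {n L q : ℕ} (D : Finset (Fin n × Fin n))
    (hD : ∀ e ∈ D, ∀ e' ∈ D, e.1 = e'.1 ∨ e.2 = e'.2 → e = e')
    (h : 3 * (L * q ^ 2) ≤ D.card) :
    ∃ sub : Fin n × Fin n → (Fin L × (Fin q × Fin q)) ⊕ Bool,
      (∀ e z, sub e = Sum.inl z → e ∈ D) ∧
      (∀ y, BPM n (pl sub y) ↔ ∀ k, BPM q (fun e => y (k, e))) ∧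
      (∀ a, {b | sub (a, b) ≠ Sum.inr false}.ncard ≤ q + 1 ∧
        {b | sub (b, a) ≠ Sum.inr false}.ncard ≤ q + 1) := by
  classical
  have hcard : Fintype.card (Fin L × (Fin q × Fin q)) = L * q ^ 2 := by
    simp only [Fintype.card_prod, Fintype.card_fin]
    ring
  have h1 : Fintype.card (Fin L × (Fin q × Fin q)) ≤ Fintype.card D := by
    rw [hcard, Fintype.card_coe]
    omega
  obtain ⟨g⟩ := Function.Embedding.nonempty_of_card_le h1
  let x : Fin L × (Fin q × Fin q) → Fin n := fun z => (g z : Fin n × Fin n).1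
  let w : Fin L × (Fin q × Fin q) → Fin n := fun z => (g z : Fin n × Fin n).2
  have hx : Function.Injective x := by
    intro z z' hzz
    exact g.injective (Subtype.ext (hD _ (g z).2 _ (g z').2 (Or.inl hzz)))
  have hw : Function.Injective w := by
    intro z z' hzz
    exact g.injective (Subtype.ext (hD _ (g z).2 _ (g z').2 (Or.inr hzz)))
  have hDn : D.card ≤ n := by
    have h2 : D.card = (D.image Prod.fst).card := by
      rw [Finset.card_image_of_injOn]
      intro e he e' he' hee
      exact hD e he e' he' (Or.inl hee)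
    rw [h2]
    refine (Finset.card_le_univ _).trans ?_
    rw [Fintype.card_fin]
  have hq2 : L * q ≤ L * q ^ 2 := by
    apply Nat.mul_le_mul_left
    rw [pow_two]
    rcases Nat.eq_zero_or_pos q with h0 | h0
    · rw [h0]; exact Nat.zero_le _
    · exact Nat.le_mul_of_pos_left q h0
  have hn : L * q ^ 2 + (L * q + L * q ^ 2) ≤ n := by omega
  set r := n - (L * q ^ 2 + (L * q + L * q ^ 2)) with hr
  have hside : Fintype.card (Fin L × (Fin q × Fin q)) +
      Fintype.card ((Fin L × Fin q) ⊕ ((Fin L × (Fin q × Fin q)) ⊕ Fin r)) = n := by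
    rw [Fintype.card_sum, Fintype.card_sum, hcard, Fintype.card_prod, Fintype.card_fin,
      Fintype.card_fin, Fintype.card_fin]
    omega
  obtain ⟨eL, hL⟩ := exists_side x hx ((Fin L × Fin q) ⊕ ((Fin L × (Fin q × Fin q)) ⊕ Fin r))
    hside
  obtain ⟨eR, hR⟩ := exists_side w hw ((Fin L × Fin q) ⊕ ((Fin L × (Fin q × Fin q)) ⊕ Fin r))
    hside
  refine ⟨sbM eL eR, fun e z he => ?_, fun y => sbM_pm eL eR y, sbM_sparse eL eR⟩
  obtain ⟨h2, h3⟩ := sbM_var eL eR e z he
  have h4 : e.1 = x z := eL.injective (h2.trans (hL z).symm)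
  have h5 : e.2 = w z := eR.injective (h3.trans (hR z).symm)
  have h6 : e = (g z : Fin n × Fin n) := Prod.ext h4 h5
  rw [h6]
  exact (g z).2

end Pool.Agent.NEGV
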