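import Pool.Agent.Lib.MP_0087d5_lc.NEGV.Subst
import Pool.Agent.Lib.MP_0087d5_lc.NEGV.EmbedM
import Pool.Agent.Lib.MP_0087d5_lc.NEGT.Avg

/-!
The final estimate for a set of disjoint variables, from the theorem for canonical blocks and
the embedding.
-/

namespace Pool.Agent.NEGV

open Pool.Agent.NEG Pool.Agent.NEGS Pool.Agent.NEGT

theorem transfer {I J G : Type} [Finite G] (C : Circuit J G) (sub : J → I ⊕ Bool) {d : ℕ}
    (hC : C.DepthLE d) (N : Set J) (hN : ∀ e ∈ N, ∃ b, sub e = Sum.inr b)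
    (hout : ¬ Det C N C.out) :
    ∃ C' : Circuit I {g // g ∉ {g | Det C N g}}, C'.DepthLE d ∧
      (∀ g, C'.arity g = C.arity g) ∧ (∀ g, C'.Plain g ↔ C.Plain g) ∧
      (∀ g i g', C'.src g i = Sum.inr g' → ∃ i', C.src g i' = Sum.inr (g' : G)) ∧
      ∀ x y, Differs C (pl sub x) (pl sub y) → Differs C' x y := by
  obtain ⟨v0, hv0⟩ := det_const C sub hC N hN
  refine ⟨subst C sub {g | Det C N g} v0 hout, subst_depth _ _ _ _ _ hC, fun _ => rfl,
    fun _ => Iff.rfl, fun g i g' h => ⟨i, subst_src_inr _ _ _ _ _ _ _ _ h⟩,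
    fun x y hxy hC' => hxy ?_⟩
  intro v w hv hw
  exact hC' _ _ (subst_consistent C sub _ v0 hout x v hv (hv0 x v hv))
    (subst_consistent C sub _ v0 hout y w hw (hv0 y w hw))

open Classical in
theorem finalM (c0 : ℕ) (ha : 1 ≤ c0)
    (hex : ∀ l : ℕ, c0 ≤ l → ∃ 𝒜 : Set ((Fin (l ^ 7) × Fin (l ^ 7) → Bool) → Prop),
      IsApp l (l ^ 7) 𝒜) :
    ∃ K : ℕ, ∀ (n s : ℕ) (D : Finset (Fin n × Fin n)), 0 < n →
    (∀ e ∈ D, ∀ e' ∈ D, e.1 = e'.1 ∨ e.2 = e'.2 → e = e') →
    ∃ (M : ℕ) (P Q : Fin M → Fin n × Fin n → Bool) (B : Fin n × Fin n → Bool), 0 < M ∧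
      (∀ a, {b | B (a, b) = true}.ncard ≤ K * (Nat.log 2 (s + n) + 1) ^ 7 ∧
        {b | B (b, a) = true}.ncard ≤ K * (Nat.log 2 (s + n) + 1) ^ 7) ∧
      (∀ i e, (Q i e = true → P i e = true) ∧ (P i e = true → B e = true)) ∧
      (∀ i, BPM n (P i) ∧ ¬ BPM n (Q i)) ∧
      ∀ (t m r : ℕ) (G : Type) [Finite G] (C : Circuit (Fin n × Fin n) G) (ρ : G → ℕ),
        (∃ d, C.DepthLE d) → {g | ¬ Det C {e | e ∉ D} g}.ncard ≤ s →
        {g | ¬ Det C {e | e ∉ D} g ∧ ¬ C.Plain g}.ncard ≤ t →
        (∀ g, ¬ Det C {e | e ∉ D} g → ¬ C.Plain g → C.arity g ≤ m) →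
        (∀ g i g', C.src g i = Sum.inr g' → ρ g' ≤ ρ g ∧ (¬ C.Plain g → ρ g' < ρ g)) →
        (∀ g, ρ g < r) →
        D.card * {i | Differs C (P i) (Q i)}.ncard ≤
          K * min (m * 2 ^ t + 1) (∏ j ∈ Finset.range r,
            (m * {g | ¬ Det C {e | e ∉ D} g ∧ (¬ C.Plain g ∧ ρ g = j)}.ncard + 1)) *
            (Nat.log 2 (s + n) + 1) ^ 14 * M := by
  refine ⟨36 * c0 ^ 14, fun n s D hn hD => ?_⟩
  have ha7 : c0 ^ 7 ≤ c0 ^ 14 := Nat.pow_le_pow_right ha (by norm_num)
  set l0 : ℕ := Nat.log 2 (s + n) + 1 with hl0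
  have hl01 : 1 ≤ l0 := by omega
  have hsn : s + n < 2 ^ l0 := Nat.lt_pow_succ_log_self (by norm_num) (s + n)
  set l : ℕ := c0 * l0 with hl
  have hal : c0 ≤ l := Nat.le_mul_of_pos_right _ hl01
  have hl0l : l0 ≤ l := Nat.le_mul_of_pos_left l0 ha
  have hl1 : 1 ≤ l := ha.trans hal
  have hpow : 2 ^ l0 ≤ 2 ^ l := Nat.pow_le_pow_right (by norm_num) hl0l
  obtain ⟨q, hq, 𝒜, h𝒜⟩ : ∃ q, q = l ^ 7 ∧
      ∃ 𝒜 : Set ((Fin q × Fin q → Bool) → Prop), IsApp l q 𝒜 := ⟨_, rfl, hex l hal⟩
  have hq0 : 0 < q := by rw [hq]; positivity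
  have hqe : q = c0 ^ 7 * l0 ^ 7 := by rw [hq, hl, Nat.mul_pow]
  have hq2 : q ^ 2 = c0 ^ 14 * l0 ^ 14 := by
    rw [hqe, Nat.mul_pow, ← pow_mul, ← pow_mul]
  have hDn : D.card ≤ n := by
    have h2 : D.card = (D.image Prod.fst).card := by
      rw [Finset.card_image_of_injOn]
      intro e he e' he' hee
      exact hD e he e' he' (Or.inl hee)
    rw [h2]
    refine (Finset.card_le_univ _).trans ?_
    rw [Fintype.card_fin]
  set L : ℕ := D.card / (3 * q ^ 2) with hL
  have hpos : 0 < 3 * q ^ 2 := by positivity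
  have hLlt : D.card < (L + 1) * (3 * q ^ 2) := by
    have := Nat.lt_mul_div_succ D.card hpos
    rw [Nat.mul_comm] at this
    exact this
  rcases Nat.eq_zero_or_pos L with hL0 | hL0
  · -- few variables
    refine ⟨1, fun _ e => decide (e.1 = e.2), fun _ _ => false,
      fun e => decide (e.1 = e.2), one_pos, fun a => ?_, fun i e => ⟨?_, fun h => h⟩,
      fun i => ⟨⟨1, fun a => ?_⟩, ?_⟩, ?_⟩
    · have hK : 1 ≤ 36 * c0 ^ 14 * l0 ^ 7 := by
        have h1 : 0 < 36 * c0 ^ 14 * l0 ^ 7 := by positivity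
        exact h1
      have e1 : {b : Fin n | decide (a = b) = true} = {a} := by
        ext b
        simp [eq_comm]
      have e2 : {b : Fin n | decide (b = a) = true} = {a} := by
        ext b
        simp
      change {b : Fin n | decide (a = b) = true}.ncard ≤ _ ∧
        {b : Fin n | decide (b = a) = true}.ncard ≤ _
      rw [e1, e2, Set.ncard_singleton]
      exact ⟨hK, hK⟩
    · intro h
      exact absurd h Bool.false_ne_true
    · simp
    · rintro ⟨s, hs⟩
      exact absurd (hs ⟨0, hn⟩) Bool.false_ne_true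
    · intro t m r G _ C ρ _ _ _ _ _ _
      have h1 : D.card ≤ 3 * q ^ 2 := by
        rw [hL0] at hLlt
        omega
      have h2 : {i | Differs C ((fun _ e => decide (e.1 = e.2) :
          Fin 1 → Fin n × Fin n → Bool) i) ((fun _ _ => false) i)}.ncard ≤ 1 := by
        have := Set.ncard_le_card {i : Fin 1 | Differs C ((fun _ e => decide (e.1 = e.2) :
          Fin 1 → Fin n × Fin n → Bool) i) ((fun _ _ => false) i)}
        rwa [Nat.card_eq_fintype_card, Fintype.card_fin] at this
      have h3 : 1 ≤ min (m * 2 ^ t + 1) (∏ j ∈ Finset.range r,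
            (m * {g | ¬ Det C {e | e ∉ D} g ∧ (¬ C.Plain g ∧ ρ g = j)}.ncard + 1)) := by
        refine le_min (by omega) ?_
        exact Nat.one_le_iff_ne_zero.mpr
          (Finset.prod_ne_zero_iff.mpr (fun _ _ => Nat.succ_ne_zero _))
      calc D.card * {i | Differs C _ _}.ncard ≤ (3 * q ^ 2) * 1 :=
            Nat.mul_le_mul h1 h2
        _ = 3 * c0 ^ 14 * 1 * l0 ^ 14 := by rw [hq2]; ring
        _ ≤ 36 * c0 ^ 14 * min (m * 2 ^ t + 1) (∏ j ∈ Finset.range r,
            (m * {g | ¬ Det C {e | e ∉ D} g ∧ (¬ C.Plain g ∧ ρ g = j)}.ncard + 1)) *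
            l0 ^ 14 := by
            gcongr
            norm_num
        _ = _ := (Nat.mul_one _).symm
  · -- the main case
    have hfit : 3 * (L * q ^ 2) ≤ D.card := by
      calc 3 * (L * q ^ 2) = 3 * q ^ 2 * L := by ring
        _ ≤ D.card := Nat.mul_div_le _ _
    obtain ⟨sub, hs1, hs2, hs3⟩ := exists_embedM D hD hfit
    have hLn : L ≤ n := (Nat.div_le_self _ _).trans hDn
    have hLE : L ≤ 2 ^ (3 * l) := by
      calc L ≤ n := hLn
        _ ≤ s + n := Nat.le_add_left _ _
        _ ≤ 2 ^ l0 := hsn.le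
        _ ≤ 2 ^ l := hpow
        _ ≤ 2 ^ (3 * l) := Nat.pow_le_pow_right (by norm_num) (by omega)
    obtain ⟨M, P, Q, hM, hQP, hP, hQ, hmain⟩ := core_avg h𝒜 hq0 hL0 hLE
    have hconst : ∀ e ∈ {e | e ∉ D}, ∃ b, sub e = Sum.inr b := by
      intro e he
      cases h : sub e with
      | inl z => exact absurd (hs1 e z h) he
      | inr b => exact ⟨b, rfl⟩
    refine ⟨M, fun i => pl sub (P i), fun i => pl sub (Q i),
      fun e => decide (sub e ≠ Sum.inr false), hM, fun a => ?_, fun i e => ⟨?_, ?_⟩,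
      fun i => ⟨?_, ?_⟩, ?_⟩
    · have h1 := hs3 a
      have hK : q + 1 ≤ 36 * c0 ^ 14 * l0 ^ 7 := by
        calc q + 1 ≤ q + q := by omega
          _ = 2 * c0 ^ 7 * l0 ^ 7 := by rw [hqe]; ring
          _ ≤ 36 * c0 ^ 14 * l0 ^ 7 := by
              gcongr
              norm_num
      constructor
      · refine le_trans ?_ (h1.1.trans hK)
        apply le_of_eq
        congr 1
        ext b
        simp
      · refine le_trans ?_ (h1.2.trans hK)
        apply le_of_eq
        congr 1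
        ext b
        simp
    · intro h
      change pl sub (Q i) e = true at h
      change pl sub (P i) e = true
      unfold pl at h ⊢
      cases h' : sub e with
      | inl z =>
          rw [h'] at h
          exact hQP i z h
      | inr b =>
          rw [h'] at h
          exact h
    · intro h
      change pl sub (P i) e = true at h
      rw [decide_eq_true_eq]
      intro h'
      unfold pl at h
      rw [h'] at h
      exact absurd h Bool.false_ne_true
    · rw [hs2]
      exact hP i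
    · rw [hs2]
      push Not
      exact hQ i
    · intro t m r G _ C ρ hC hs ht hm hρ hr
      by_cases hout : Det C {e | e ∉ D} C.out
      · -- the output is free
        have h0 : {i | Differs C (pl sub (P i)) (pl sub (Q i))} = ∅ := by
          rw [Set.eq_empty_iff_forall_notMem]
          intro i hi
          refine hi (fun v w hv hw => hout _ _ (fun e he => ?_) v w hv hw)
          obtain ⟨b, hb⟩ := hconst e he
          unfold pl
          rw [hb]
        rw [h0, Set.ncard_empty, Nat.mul_zero]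
        exact Nat.zero_le _
      · obtain ⟨d, hd⟩ := hC
        obtain ⟨C', hC1, hC2, hC3, hC4, hC5⟩ := transfer C sub hd {e | e ∉ D} hconst hout
        have hcount : ∀ p : G → Prop, {g : {g // g ∉ {g | Det C {e | e ∉ D} g}} | p g}.ncard =
            {g | ¬ Det C {e | e ∉ D} g ∧ p g}.ncard :=
          fun p => ncard_subst {g | Det C {e | e ∉ D} g} p
        have h1 := hmain _ C' ⟨d, hC1⟩ (by
            calc Nat.card {g // g ∉ {g | Det C {e | e ∉ D} g}} =
                {g | ¬ Det C {e | e ∉ D} g}.ncard := rfl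
              _ ≤ s := hs
              _ ≤ 2 ^ l := by omega) t m r (fun g => ρ g)
            (by
              have e1 : {g | ¬ C'.Plain g} =
                  {g : {g // g ∉ {g | Det C {e | e ∉ D} g}} | ¬ C.Plain g} := by
                ext g
                exact not_congr (hC3 g)
              rw [e1, hcount (fun g => ¬ C.Plain g)]
              exact ht)
            (fun g hg => by
              rw [hC2 g]
              exact hm g g.2 (fun h => hg ((hC3 g).mpr h)))
            (fun g i g' h => by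
              obtain ⟨i', hi'⟩ := hC4 g i g' h
              have h2 := hρ g i' g' hi'
              exact ⟨h2.1, fun hg => h2.2 (fun h => hg ((hC3 g).mpr h))⟩)
            (fun g => hr g)
        have hprof : (∏ j ∈ Finset.range r, (m * {g | ¬ C'.Plain g ∧ ρ g = j}.ncard + 1)) =
            ∏ j ∈ Finset.range r,
            (m * {g | ¬ Det C {e | e ∉ D} g ∧ (¬ C.Plain g ∧ ρ g = j)}.ncard + 1) := by
          refine Finset.prod_congr rfl (fun j _ => ?_)
          have e1 : {g | ¬ C'.Plain g ∧ ρ g = j} =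
              {g : {g // g ∉ {g | Det C {e | e ∉ D} g}} | ¬ C.Plain g ∧ ρ g = j} := by
            ext g
            exact and_congr (not_congr (hC3 g)) Iff.rfl
          rw [e1, hcount (fun g => ¬ C.Plain g ∧ ρ g = j)]
        rw [hprof] at h1
        have h2 : {i | Differs C (pl sub (P i)) (pl sub (Q i))}.ncard ≤
            {i | Differs C' (P i) (Q i)}.ncard :=
          Set.ncard_le_ncard (fun i hi => hC5 _ _ hi) (Set.toFinite _)
        set A : ℕ := min (m * 2 ^ t + 1) (∏ j ∈ Finset.range r,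
            (m * {g | ¬ Det C {e | e ∉ D} g ∧ (¬ C.Plain g ∧ ρ g = j)}.ncard + 1))
        set F : ℕ := {i | Differs C (pl sub (P i)) (pl sub (Q i))}.ncard
        set F' : ℕ := {i | Differs C' (P i) (Q i)}.ncard
        calc D.card * F ≤ ((L + 1) * (3 * q ^ 2)) * F' :=
              Nat.mul_le_mul hLlt.le h2
          _ ≤ ((L + L) * (3 * q ^ 2)) * F' := by gcongr; omega
          _ = 6 * q ^ 2 * (L * F') := by ring
          _ ≤ 6 * q ^ 2 * (6 * A * M) := Nat.mul_le_mul_left _ h1
          _ = 36 * c0 ^ 14 * A * l0 ^ 14 * M := by rw [hq2]; ring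

end Pool.Agent.NEGV
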